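import Pool.Agent.Y122.TQ.Defs

/-! # Project TQ, job ZZ (helper3 for helper122) -/

set_option autoImplicit false

namespace Pool.Agent.Y3.TQ

open Finset Filter Topology MeasureTheory
open Pool.Agent.H306R2.RZ (js nu gm)
open Pool.Agent.H306R2.RG
open Pool.Agent.Y122.TQ

lemma fam_r {φ : FD} (h : Fam φ) : 1 ≤ φ.r := by
  obtain ⟨ε, -, h | h | h | h⟩ := h <;> subst h <;> simp [F8, F4, F1]

lemma fam_a {φ : FD} (h : Fam φ) : φ.a ≤ 1 := by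
  obtain ⟨ε, -, h | h | h | h⟩ := h <;> subst h <;> simp only [F8, F4, F1] <;> split_ifs <;> simp

lemma fam_eta {φ : FD} (h : Fam φ) : |φ.η| ≤ 1 := by
  obtain ⟨ε, -, h | h | h | h⟩ := h <;> subst h <;> simp [F8, F4, F1]

lemma gm_lower : ∃ g0 : ℝ, 0 < g0 ∧ ∀ σ : ℝ, 1 / 2 ≤ σ → σ ≤ 7 / 4 → g0 ≤ gm σ := by
  have hcont : ContinuousOn gm (Set.Icc (1 / 2 : ℝ) (7 / 4)) := by
    intro σ hσ
    have h0 : 0 < σ / 2 := by have := hσ.1; linarith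
    have h1 : ContinuousAt Real.Gamma (σ / 2) := by
      refine (Real.differentiableAt_Gamma fun m hm => ?_).continuousAt
      have : (0 : ℝ) ≤ m := Nat.cast_nonneg m
      linarith
    have h2 : ContinuousAt (fun σ : ℝ => Real.Gamma (σ / 2)) σ :=
      ContinuousAt.comp (g := Real.Gamma) (f := fun σ : ℝ => σ / 2) h1
        (continuousAt_id.div_const 2)
    have h3 : ContinuousAt (fun σ : ℝ => Real.pi ^ (-(σ / 2))) σ :=
      ContinuousAt.rpow continuousAt_const (continuousAt_id.div_const 2).neg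
        (Or.inl Real.pi_ne_zero)
    exact (h3.mul h2).continuousWithinAt
  obtain ⟨x, hx, hmin⟩ := isCompact_Icc.exists_isMinOn (Set.nonempty_Icc.mpr (by norm_num)) hcont
  have hpos : 0 < gm x := by
    unfold gm
    have h0 : 0 < x / 2 := by have := hx.1; linarith
    exact mul_pos (Real.rpow_pos_of_pos Real.pi_pos _) (Real.Gamma_pos_of_pos h0)
  exact ⟨gm x, hpos, fun σ h1 h2 => hmin ⟨h1, h2⟩⟩

lemma sq4 (a b e f c : ℝ) (hc : |c| ≤ 1) :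
    (a + b - c * e + (1 - c) * f) ^ 2 ≤ 4 * (a ^ 2 + b ^ 2 + e ^ 2 + 4 * f ^ 2) := by
  have h1 := abs_le.mp hc
  have h2 : (a + b - c * e + (1 - c) * f) ^ 2 ≤
      4 * (a ^ 2 + b ^ 2 + (c * e) ^ 2 + ((1 - c) * f) ^ 2) := by
    nlinarith [sq_nonneg (a - b), sq_nonneg (a + c * e), sq_nonneg (a - (1 - c) * f),
      sq_nonneg (b + c * e), sq_nonneg (b - (1 - c) * f), sq_nonneg (c * e + (1 - c) * f)]
  have h3 : (c * e) ^ 2 ≤ e ^ 2 := by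
    rw [mul_pow]
    have : c ^ 2 ≤ 1 := by nlinarith
    nlinarith [sq_nonneg e]
  have h4 : ((1 - c) * f) ^ 2 ≤ 4 * f ^ 2 := by
    rw [mul_pow]
    have : (1 - c) ^ 2 ≤ 4 := by nlinarith
    nlinarith [sq_nonneg f]
  linarith

theorem zz (h1 : S_AFE) (h2 : S_ODD) (h3 : S_BIG) (h4 : S_MSR) : S_ZZ := by
  intro φ hφ
  obtain ⟨C1, E1, hC1, hbig⟩ := h3 φ hφ
  obtain ⟨C2, hC2, hmsr⟩ := h4 φ hφ
  obtain ⟨g0, hg0, hg⟩ := gm_lower
  have hr := fam_r hφ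
  have ha := fam_a hφ
  have hη := fam_eta hφ
  have hK : 0 ≤ 4 / g0 ^ 2 * (C1 ^ E1 + C1 + 7 * C2) := by positivity
  refine ⟨4 / g0 ^ 2 * (C1 ^ E1 + C1 + 7 * C2) + 1, E1 + 5, by linarith, ?_⟩
  intro N Y hN hY hNY δ hδ1 hδ2
  have hY0 : (0 : ℝ) < Y := by exact_mod_cast (by omega : 0 < Y)
  have hN0 : (0 : ℝ) < N := by exact_mod_cast (by omega : 0 < N)
  have hN1 : (1 : ℝ) ≤ N := by exact_mod_cast hN
  have hlog1 : 1 ≤ Real.log Y := by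
    rw [Real.le_log_iff_exp_le hY0]
    have h5 : (3 : ℝ) ≤ Y := by exact_mod_cast hY
    have h6 := Real.exp_one_lt_d9
    linarith
  have hlog0 : 0 < Real.log Y := by linarith
  have hδ : 0 < δ := lt_of_lt_of_le (by positivity) hδ1
  have hδi : 1 / δ ≤ Real.log Y := by
    rw [div_le_iff₀ hδ]
    rwa [div_le_iff₀ hlog0, mul_comm] at hδ1
  set σ := 1 / 2 + δ + (φ.a : ℝ) with hσ
  have ha' : (φ.a : ℝ) ≤ 1 := by exact_mod_cast ha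
  have ha0 : (0 : ℝ) ≤ (φ.a : ℝ) := Nat.cast_nonneg _
  have hgσ : g0 ≤ gm σ := hg σ (by linarith) (by linarith)
  set g := gm σ with hgdef
  set c := φ.η * (2 : ℝ) ^ (-(1 / 2 + δ)) with hc
  have h2s : (2 : ℝ) ^ (-(1 / 2 + δ)) ≤ 1 :=
    Real.rpow_le_one_of_one_le_of_nonpos (by norm_num) (by linarith)
  have h2s0 : (0 : ℝ) ≤ (2 : ℝ) ^ (-(1 / 2 + δ)) := by positivity
  have hc1 : |c| ≤ 1 := by
    rw [hc, abs_mul, abs_of_nonneg h2s0]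
    calc |φ.η| * (2 : ℝ) ^ (-(1 / 2 + δ)) ≤ 1 * 1 := mul_le_mul hη h2s h2s0 zero_le_one
      _ = 1 := one_mul 1
  set w : ℝ := 1 / (N : ℝ) ^ 8 with hw
  have hw0 : 0 < w := by positivity
  have hw1 : w ≤ 1 := by
    rw [hw, div_le_one (by positivity)]
    exact one_le_pow₀ hN1
  have hdw : ∀ d ∈ Om φ Y, 1 / ((φ.r : ℝ) * d) ≤ w := by
    intro d hd
    simp only [Om, Finset.mem_filter, Finset.mem_Icc] at hd
    obtain ⟨⟨hd1, -⟩, -, -, hd4⟩ := hd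
    have h5 : N ^ 8 ≤ d := by
      have h6 : (N ^ 8) ^ 4 ≤ d ^ 4 := by
        calc (N ^ 8) ^ 4 = N ^ 32 := by rw [← pow_mul]
          _ ≤ N ^ 48 := Nat.pow_le_pow_right hN (by norm_num)
          _ = (N ^ 16) ^ 3 := by rw [← pow_mul]
          _ ≤ Y ^ 3 := Nat.pow_le_pow_left hNY 3
          _ ≤ d ^ 4 := hd4
      exact le_of_pow_le_pow_left₀ (by norm_num) (Nat.zero_le _) h6
    have h7 : ((N : ℝ)) ^ 8 ≤ (φ.r : ℝ) * d := by
      have h8 : ((N : ℝ)) ^ 8 ≤ d := by exact_mod_cast h5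
      have h9 : (1 : ℝ) ≤ φ.r := by exact_mod_cast hr
      have h10 : (0 : ℝ) ≤ d := Nat.cast_nonneg _
      nlinarith
    exact one_div_le_one_div_of_le (by positivity) h7
  have hdw4 : ∀ d ∈ Om φ Y, 1 / ((φ.r : ℝ) * d) ≤ 4 * w := fun d hd =>
    (hdw d hd).trans (by linarith)
  -- the pointwise inequality
  have key : ∀ d ∈ Om φ Y, g0 ^ 2 * ((1 - c) * LLg φ d (1 / 2 + δ) -
      Qo φ (fun _ => 1) N δ d) ^ 2 ≤
      4 * (((∫ v in Set.Ioi w, vto φ d v * v ^ (xe φ δ)) - g * Qo φ (fun _ => 1) N δ d) ^ 2 +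
        R1 φ δ w d ^ 2 + R1 φ δ (4 * w) d ^ 2 + 4 * R2 φ δ d ^ 2) := by
    intro d hd
    have hd' := hd
    simp only [Om, Finset.mem_filter, Finset.mem_Icc] at hd'
    obtain ⟨⟨hd1, -⟩, hdA, hdS, -⟩ := hd'
    have e1 := h1 φ hφ d hdA hdS δ hδ hδ2 w (hdw d hd)
    have e2 := h1 φ hφ d hdA hdS δ hδ hδ2 (4 * w) (hdw4 d hd)
    have e3 := h2 φ hφ d (by omega) δ hδ hδ2 w hw0
    rw [← hσ, ← hgdef] at e1 e2
    rw [← hc] at e3
    set L := LLg φ d (1 / 2 + δ)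
    set Q := Qo φ (fun _ => 1) N δ d
    set J := ∫ v in Set.Ioi w, vto φ d v * v ^ (xe φ δ)
    have e4 : g * ((1 - c) * L - Q) = (J - g * Q) + R1 φ δ w d - c * R1 φ δ (4 * w) d +
        (1 - c) * R2 φ δ d := by
      linear_combination e1 - c * e2 + e3
    have e5 : g0 ^ 2 * ((1 - c) * L - Q) ^ 2 ≤ (g * ((1 - c) * L - Q)) ^ 2 := by
      rw [mul_pow]
      exact mul_le_mul_of_nonneg_right (pow_le_pow_left₀ hg0.le hgσ 2) (sq_nonneg _)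
    refine e5.trans ?_
    rw [e4]
    exact sq4 _ _ _ _ c hc1
  -- the sums
  have hB := hbig N Y hN (by omega) δ hδ hδ2
  obtain ⟨hM1, hM2⟩ := hmsr Y hY δ hδ hδ2
  have hR1 := hM1 w (by linarith) hdw
  have hR14 := hM1 (4 * w) (by linarith) hdw4
  have hNδ0 : 0 < (N : ℝ) ^ (-δ) := Real.rpow_pos_of_pos hN0 _
  have hwδ : w ^ δ ≤ (N : ℝ) ^ (-δ) := by
    rw [hw, one_div, ← Real.rpow_natCast, ← Real.rpow_neg hN0.le, ← Real.rpow_mul hN0.le]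
    exact Real.rpow_le_rpow_of_exponent_le hN1 (by push_cast; nlinarith)
  have h4wδ : (4 * w) ^ δ ≤ 2 * (N : ℝ) ^ (-δ) := by
    rw [Real.mul_rpow (by norm_num) hw0.le]
    have h5 : (4 : ℝ) ^ δ ≤ 2 := by
      calc (4 : ℝ) ^ δ ≤ (4 : ℝ) ^ (1 / 2 : ℝ) :=
            Real.rpow_le_rpow_of_exponent_le (by norm_num) (by linarith)
        _ = 2 := by
            rw [← Real.sqrt_eq_rpow]
            rw [show (4 : ℝ) = 2 ^ 2 by norm_num]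
            exact Real.sqrt_sq (by norm_num)
    exact mul_le_mul h5 hwδ (by positivity) (by norm_num)
  have hYδ : (Y : ℝ) ^ (-(δ / 2)) ≤ (N : ℝ) ^ (-δ) := by
    have h5 : ((N : ℝ) ^ 16) ≤ Y := by exact_mod_cast hNY
    calc (Y : ℝ) ^ (-(δ / 2)) ≤ ((N : ℝ) ^ 16) ^ (-(δ / 2)) :=
          Real.rpow_le_rpow_of_nonpos (by positivity) h5 (by linarith)
      _ = (N : ℝ) ^ (16 * (-(δ / 2))) := by
          rw [← Real.rpow_natCast, ← Real.rpow_mul hN0.le]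
          norm_num
      _ ≤ (N : ℝ) ^ (-δ) := Real.rpow_le_rpow_of_exponent_le hN1 (by linarith)
  have hδ2i : 1 / δ ^ 2 ≤ Real.log Y ^ 2 := by
    have h5 : 1 / δ ^ 2 = (1 / δ) ^ 2 := by rw [one_div_pow]
    rw [h5]
    exact pow_le_pow_left₀ (by positivity) hδi 2
  -- a common bound for the remainders
  have hrem : ∀ (z : ℝ) (a : ℝ), 0 ≤ a → z ≤ a * (N : ℝ) ^ (-δ) →
      C2 * Y * Real.log Y ^ 3 * (z / δ ^ 2) ≤
        a * C2 * (Real.log Y ^ (E1 + 5) * (Y * (N : ℝ) ^ (-δ))) := by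
    intro z a ha2 hz
    have h5 : z / δ ^ 2 ≤ a * (N : ℝ) ^ (-δ) * Real.log Y ^ 2 := by
      calc z / δ ^ 2 ≤ a * (N : ℝ) ^ (-δ) / δ ^ 2 := by gcongr
        _ = a * (N : ℝ) ^ (-δ) * (1 / δ ^ 2) := by ring
        _ ≤ _ := mul_le_mul_of_nonneg_left hδ2i (by positivity)
    have h6 : Real.log Y ^ 5 ≤ Real.log Y ^ (E1 + 5) := pow_le_pow_right₀ hlog1 (by omega)
    calc C2 * Y * Real.log Y ^ 3 * (z / δ ^ 2)
        ≤ C2 * Y * Real.log Y ^ 3 * (a * (N : ℝ) ^ (-δ) * Real.log Y ^ 2) :=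
          mul_le_mul_of_nonneg_left h5 (by positivity)
      _ = a * C2 * (Real.log Y ^ 5 * (Y * (N : ℝ) ^ (-δ))) := by ring
      _ ≤ _ := by gcongr
  have hT2 : 0 ≤ (Y : ℝ) ^ (3 / 4 : ℝ) * (N : ℝ) ^ (E1 + 5) := by positivity
  have hT1 : 0 ≤ (Y : ℝ) * (N : ℝ) ^ (-δ) := by positivity
  have hb1 : (Y : ℝ) * ((N : ℝ) ^ (-δ) * (C1 / δ) ^ E1) ≤
      C1 ^ E1 * (Real.log Y ^ (E1 + 5) * (Y * (N : ℝ) ^ (-δ))) := by
    have h5 : (C1 / δ) ^ E1 ≤ C1 ^ E1 * Real.log Y ^ (E1 + 5) := by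
      calc (C1 / δ) ^ E1 = C1 ^ E1 * (1 / δ) ^ E1 := by rw [← mul_pow]; congr 1; ring
        _ ≤ C1 ^ E1 * Real.log Y ^ E1 := by gcongr
        _ ≤ _ := mul_le_mul_of_nonneg_left (pow_le_pow_right₀ hlog1 (by omega)) (by positivity)
    calc (Y : ℝ) * ((N : ℝ) ^ (-δ) * (C1 / δ) ^ E1)
        ≤ Y * ((N : ℝ) ^ (-δ) * (C1 ^ E1 * Real.log Y ^ (E1 + 5))) := by gcongr
      _ = _ := by ring
  have hb2 : C1 * (Y : ℝ) ^ (3 / 4 : ℝ) * (N : ℝ) ^ E1 ≤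
      C1 * (Real.log Y ^ (E1 + 5) * ((Y : ℝ) ^ (3 / 4 : ℝ) * (N : ℝ) ^ (E1 + 5))) := by
    have h5 : (N : ℝ) ^ E1 ≤ (N : ℝ) ^ (E1 + 5) := pow_le_pow_right₀ hN1 (by omega)
    have h6 : 1 ≤ Real.log Y ^ (E1 + 5) := one_le_pow₀ hlog1
    calc C1 * (Y : ℝ) ^ (3 / 4 : ℝ) * (N : ℝ) ^ E1
        ≤ C1 * (Y : ℝ) ^ (3 / 4 : ℝ) * (N : ℝ) ^ (E1 + 5) := by gcongr
      _ = C1 * (1 * ((Y : ℝ) ^ (3 / 4 : ℝ) * (N : ℝ) ^ (E1 + 5))) := by ring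
      _ ≤ _ := by gcongr
  have hr1 := hR1.trans (hrem (w ^ δ) 1 zero_le_one (by rw [one_mul]; exact hwδ))
  have hr2 := hR14.trans (hrem ((4 * w) ^ δ) 2 (by norm_num) h4wδ)
  have hr3 := hM2.trans (hrem ((Y : ℝ) ^ (-(δ / 2))) 1 zero_le_one (by rw [one_mul]; exact hYδ))
  have hsum := Finset.sum_le_sum key
  rw [← Finset.mul_sum, ← Finset.mul_sum, Finset.sum_add_distrib, Finset.sum_add_distrib,
    Finset.sum_add_distrib, ← Finset.mul_sum] at hsum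
  set S := ∑ d ∈ Om φ Y, ((1 - c) * LLg φ d (1 / 2 + δ) - Qo φ (fun _ => 1) N δ d) ^ 2 with hS
  set T := Real.log Y ^ (E1 + 5) * ((Y : ℝ) * (N : ℝ) ^ (-δ)) with hT
  set T' := Real.log Y ^ (E1 + 5) * ((Y : ℝ) ^ (3 / 4 : ℝ) * (N : ℝ) ^ (E1 + 5)) with hT'
  have hTn : 0 ≤ T := by positivity
  have hTn' : 0 ≤ T' := by positivity
  have hfin : g0 ^ 2 * S ≤ 4 * ((C1 ^ E1 + C1 + 7 * C2) * (T + T')) := by
    have hCE : 0 ≤ C1 ^ E1 := by positivity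
    have hx1 : 0 ≤ C1 ^ E1 * T' := by positivity
    have hx2 : 0 ≤ C1 * T := by positivity
    have hx3 : 0 ≤ C2 * T' := by positivity
    have hexp : (C1 ^ E1 + C1 + 7 * C2) * (T + T') = C1 ^ E1 * T + C1 ^ E1 * T' + C1 * T +
        C1 * T' + 7 * (C2 * T) + 7 * (C2 * T') := by ring
    have hB2 := hB.trans (add_le_add hb1 hb2)
    rw [one_mul] at hr1 hr3
    rw [mul_assoc] at hr2
    rw [hexp]
    linarith
  have hS2 : S ≤ 4 / g0 ^ 2 * (C1 ^ E1 + C1 + 7 * C2) * (T + T') := by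
    have h5 : S = (g0 ^ 2 * S) / g0 ^ 2 := by field_simp
    rw [h5, div_le_iff₀ (by positivity)]
    calc g0 ^ 2 * S ≤ 4 * ((C1 ^ E1 + C1 + 7 * C2) * (T + T')) := hfin
      _ = 4 / g0 ^ 2 * (C1 ^ E1 + C1 + 7 * C2) * (T + T') * g0 ^ 2 := by field_simp
  calc S ≤ 4 / g0 ^ 2 * (C1 ^ E1 + C1 + 7 * C2) * (T + T') := hS2
    _ ≤ (4 / g0 ^ 2 * (C1 ^ E1 + C1 + 7 * C2) + 1) * (T + T') :=
        mul_le_mul_of_nonneg_right (by linarith) (by positivity)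
    _ = _ := by rw [hT, hT']; ring

end Pool.Agent.Y3.TQ
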